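import Pool.Agent.X187.FH.Spec

namespace Pool.Agent.X187.FH

open Filter Topology Finset

noncomputable section

open Classical in
/-- number of elements of `B` below `x` -/
def cnt (B : Set ℕ) (x : ℕ) : ℕ := ((range x).filter (· ∈ B)).card

lemma cnt_zero (B : Set ℕ) : cnt B 0 = 0 := by simp [cnt]

lemma cnt_succ_mem {B : Set ℕ} {x : ℕ} (h : x ∈ B) : cnt B (x+1) = cnt B x + 1 := by
  classical
  unfold cnt
  rw [Finset.range_add_one, Finset.filter_insert, if_pos h, Finset.card_insert_of_notMem (by simp)]

lemma cnt_succ_not {B : Set ℕ} {x : ℕ} (h : x ∉ B) : cnt B (x+1) = cnt B x := by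
  classical
  unfold cnt
  rw [Finset.range_add_one, Finset.filter_insert, if_neg h]

lemma cnt_mono (B : Set ℕ) : Monotone (cnt B) := by
  classical
  intro x y h
  unfold cnt
  exact Finset.card_le_card (Finset.filter_subset_filter _ (Finset.range_mono h))

lemma cnt_mono_set {B C : Set ℕ} (h : B ⊆ C) (x : ℕ) : cnt B x ≤ cnt C x := by
  classical
  unfold cnt
  exact Finset.card_le_card (Finset.monotone_filter_right _ (fun a _ ha => h ha))

lemma cnt_le (B : Set ℕ) (x : ℕ) : cnt B x ≤ x := by
  classical
  unfold cnt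
  exact (Finset.card_filter_le _ _).trans (by simp)

lemma cnt_succ_le (B : Set ℕ) (x : ℕ) : cnt B (x+1) ≤ cnt B x + 1 := by
  by_cases h : x ∈ B
  · exact (cnt_succ_mem h).le
  · rw [cnt_succ_not h]; omega

lemma cnt_add_le (B : Set ℕ) (x y : ℕ) : cnt B (x+y) ≤ cnt B x + y := by
  induction y with
  | zero => simp
  | succ y ih => 
    have := cnt_succ_le B (x+y)
    rw [← add_assoc]; omega

/-- every `s`-th element of `B` -/
def thin (s : ℕ) (B : Set ℕ) : Set ℕ := {b | b ∈ B ∧ s ∣ cnt B (b+1)}

lemma thin_sub (s : ℕ) (B : Set ℕ) : thin s B ⊆ B := fun _ h => h.1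

lemma cnt_thin (s : ℕ) (B : Set ℕ) (x : ℕ) : cnt (thin s B) x = cnt B x / s := by
  induction x with
  | zero => simp [cnt_zero]
  | succ x ih =>
    by_cases h : x ∈ B
    · rw [cnt_succ_mem h, Nat.succ_div, ← ih]
      by_cases h2 : s ∣ cnt B x + 1
      · rw [if_pos h2, cnt_succ_mem]
        exact ⟨h, by rwa [cnt_succ_mem h]⟩
      · rw [if_neg h2, cnt_succ_not, add_zero]
        exact fun h3 => h2 (by have := h3.2; rwa [cnt_succ_mem h] at this)
    · rw [cnt_succ_not h, cnt_succ_not (fun h3 => h h3.1), ih]

lemma thin_spacing {s : ℕ} {B : Set ℕ} {a b : ℕ} (ha : a ∈ thin s B) (hb : b ∈ thin s B)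
    (hab : a < b) : a + s ≤ b := by
  have h1 : cnt B (a+1) < cnt B (b+1) := by
    rw [cnt_succ_mem hb.1]
    have := cnt_mono B (show a+1 ≤ b by omega)
    omega
  have h2 : cnt B (b+1) ≤ cnt B (a+1) + (b - a) := by
    have := cnt_add_le B (a+1) (b-a)
    rwa [show a+1+(b-a) = b+1 by omega] at this
  obtain ⟨u, hu⟩ := ha.2
  obtain ⟨v, hv⟩ := hb.2
  rw [hu, hv] at h1 h2
  have h3 : u < v := lt_of_mul_lt_mul_left h1 (Nat.zero_le _)
  have h4 : s * (u+1) ≤ s * v := Nat.mul_le_mul_left _ h3
  have h5 : s * (u+1) = s*u + s := by ring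
  omega

/-- Two naturals at distance at least two. -/
def Far (a b : ℕ) : Prop := a + 2 ≤ b ∨ b + 2 ≤ a

lemma Far.symm {a b : ℕ} (h : Far a b) : Far b a := Or.symm h

/-- The picking lemma. -/
lemma pick (r : ℕ) : ∀ (R : ℕ → Set ℕ) (m : ℕ → ℕ), (∀ i, 2 ≤ m i) →
    ∃ M : ℕ → Set ℕ, (∀ i < r, M i ⊆ R i) ∧
      (∀ i < r, ∀ j < r, ∀ a ∈ M i, ∀ b ∈ M j, (i ≠ j ∨ a ≠ b) → Far a b) ∧
      (∀ i < r, ∀ x, cnt (M i) x =
        cnt {a | a ∈ R i ∧ ∀ j, i < j → j < r → ∀ b ∈ M j, Far a b} x / m i) := by
  induction r with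
  | zero => intro R m _; exact ⟨fun _ => ∅, by simp, by simp, by simp⟩
  | succ r ih =>
    intro R m hm
    obtain ⟨M', h1, h2, h3⟩ := ih (fun i => R (i+1)) (fun i => m (i+1)) (fun i => hm _)
    set A : Set ℕ := {a | a ∈ R 0 ∧ ∀ j < r, ∀ b ∈ M' j, Far a b} with hA
    let M : ℕ → Set ℕ := fun i => match i with
      | 0 => thin (m 0) A
      | i+1 => M' i
    refine ⟨M, ?_, ?_, ?_⟩
    · intro i hi
      cases i with
      | zero => exact fun a ha => (thin_sub _ _ ha).1
      | succ i => exact h1 i (by omega)
    · intro i hi j hj a ha b hb hne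
      cases i with
      | zero =>
        cases j with
        | zero =>
          have hab : a ≠ b := by
            rcases hne with h | h
            · exact absurd rfl h
            · exact h
          have := hm 0
          rcases lt_or_gt_of_ne hab with h | h
          · left
            have := thin_spacing (ha : a ∈ thin (m 0) A) hb h
            omega
          · right
            have := thin_spacing (hb : b ∈ thin (m 0) A) ha h
            omega
        | succ j =>
          exact (thin_sub _ _ (ha : a ∈ thin (m 0) A)).2 j (by omega) b hb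
      | succ i =>
        cases j with
        | zero =>
          exact ((thin_sub _ _ (hb : b ∈ thin (m 0) A)).2 i (by omega) a ha).symm
        | succ j =>
          exact h2 i (by omega) j (by omega) a ha b hb (by
            rcases hne with h | h
            · left; omega
            · right; exact h)
    · intro i hi x
      cases i with
      | zero =>
        change cnt (thin (m 0) A) x = _
        rw [cnt_thin]
        congr 2
        ext a
        simp only [hA, Set.mem_ofPred_eq]
        refine and_congr_right fun _ => ⟨fun h j hj hj2 => ?_, fun h j hj => ?_⟩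
        · cases j with
          | zero => omega
          | succ j => exact h j (by omega)
        · exact h (j+1) (by omega) (by omega)
      | succ i =>
        change cnt (M' i) x = _
        rw [h3 i (by omega) x]
        congr 2
        ext a
        simp only [Set.mem_ofPred_eq]
        refine and_congr_right fun _ => ⟨fun h j hj hj2 => ?_, fun h j hj hj2 => ?_⟩
        · cases j with
          | zero => omega
          | succ j => exact h j (by omega) (by omega)
        · exact h (j+1) (by omega) (by omega)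

/-- Removing neighbourhoods costs little. -/
lemma cnt_avail {r i : ℕ} (R : Set ℕ) (M : ℕ → Set ℕ) (x : ℕ) :
    cnt R x ≤ cnt {a | a ∈ R ∧ ∀ j, i < j → j < r → ∀ b ∈ M j, Far a b} x +
      3 * ∑ j ∈ Ioo i r, cnt (M j) (x+1) := by
  classical
  set A : Set ℕ := {a | a ∈ R ∧ ∀ j, i < j → j < r → ∀ b ∈ M j, Far a b} with hA
  have hsub : (range x).filter (· ∈ R) ⊆ (range x).filter (· ∈ A) ∪
      (Ioo i r).biUnion (fun j => ((range (x+1)).filter (· ∈ M j)).biUnion
        (fun b => {b-1, b, b+1})) := by
    intro a ha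
    rw [Finset.mem_filter, Finset.mem_range] at ha
    rw [Finset.mem_union]
    by_cases h : a ∈ A
    · left; rw [Finset.mem_filter, Finset.mem_range]; exact ⟨ha.1, h⟩
    · right
      have : ¬ ∀ j, i < j → j < r → ∀ b ∈ M j, Far a b := fun h2 => h ⟨ha.2, h2⟩
      push Not at this
      obtain ⟨j, hj1, hj2, b, hb, hab⟩ := this
      unfold Far at hab
      rw [Finset.mem_biUnion]
      refine ⟨j, Finset.mem_Ioo.2 ⟨hj1, hj2⟩, ?_⟩
      rw [Finset.mem_biUnion]
      refine ⟨b, ?_, ?_⟩
      · rw [Finset.mem_filter, Finset.mem_range]; exact ⟨by omega, hb⟩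
      · simp only [Finset.mem_insert, Finset.mem_singleton]; omega
  have h1 := Finset.card_le_card hsub
  refine h1.trans ((Finset.card_union_le _ _).trans ?_)
  unfold cnt
  gcongr
  refine Finset.card_biUnion_le.trans ?_
  rw [Finset.mul_sum]
  refine Finset.sum_le_sum fun j _ => ?_
  refine Finset.card_biUnion_le.trans ?_
  refine (Finset.sum_le_card_nsmul _ _ 3 fun b _ => Finset.card_le_three).trans ?_
  rw [smul_eq_mul, mul_comm]

end

end Pool.Agent.X187.FH
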