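import Pool.Agent.X187.FH.Dens

namespace Pool.Agent.X187.FH

open Filter Topology Finset

noncomputable section

variable {𝕜 : Type} [RCLike 𝕜]

/-- The data of the construction. -/
structure Dat (𝕜 : Type) [RCLike 𝕜] where
  v : ℕ → ℕ → 𝕜
  L : ℕ → ℕ
  b : ℕ → ℕ
  s : ℕ → ℕ
  A : ℕ → Set ℕ
  d : ℕ → ℝ
  M : ℕ → ℕ → Set ℕ
  hv : ∀ i m, L i ≤ m → v i m = 0
  hb : ∀ i m, ‖v i m‖ ≤ b i
  hs : ∀ i, L i + b i + 1 ≤ s i
  hR : ∀ k, ∀ i < k+1, M k i ⊆ Rich (A i) (d i) (i + s i) k
  hF : ∀ k, ∀ i < k+1, ∀ j < k+1, ∀ a ∈ M k i, ∀ b ∈ M k j, (i ≠ j ∨ a ≠ b) → Far a b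

namespace Dat

variable (D : Dat 𝕜)

/-- `t` is a visit time of rank `i` in block `m` of region `k` -/
structure Vis (i t k m : ℕ) : Prop where
  hg : i + D.s i ≤ k
  hm : m ∈ D.M k i
  ht : t ∈ thin (D.s i) (D.A i ∩ blk (nn k) m)

/-- the visit times of rank `i` -/
def S (i : ℕ) : Set ℕ := {t | ∃ k m, D.Vis i t k m}

variable {D}

lemma Vis.rich {i t k m : ℕ} (h : D.Vis i t k m) : m ∈ Rich (D.A i) (D.d i) (i + D.s i) k :=
  D.hR k i (by have := h.hg; omega) h.hm

lemma Vis.memblk {i t k m : ℕ} (h : D.Vis i t k m) : m * nn k ≤ t ∧ t < (m+1) * nn k :=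
  (thin_sub _ _ h.ht).2

lemma Vis.lb {i t k m : ℕ} (h : D.Vis i t k m) : 2 * nn k ≤ t :=
  (Nat.mul_le_mul_right _ h.rich.2.1).trans h.memblk.1

lemma Vis.ub {i t k m : ℕ} (h : D.Vis i t k m) : 4 * (t + nn k) ≤ nn (k+1) := by
  have h1 := h.memblk.2
  have h2 := h.rich.2.2.1
  have h3 : 4 * (m+2) * nn k = 4 * ((m+1) * nn k + nn k) := by ring
  omega

lemma Vis.sk {i t k m : ℕ} (h : D.Vis i t k m) : D.s i ≤ k := by have := h.hg; omega
lemma Vis.sn {i t k m : ℕ} (h : D.Vis i t k m) : D.s i < nn k := by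
  have := h.sk; have := le_nn k; omega
lemma Vis.Ln {i t k m : ℕ} (h : D.Vis i t k m) : D.L i < nn k := by
  have := h.sn; have := D.hs i; omega

/-- separation -/
lemma sep {i t k m i' t' k' m' : ℕ} (h : D.Vis i t k m) (h' : D.Vis i' t' k' m') (htt : t ≤ t')
    (hne : ¬ (i = i' ∧ t = t')) :
    (t + nn k < t' ∧ k ≤ k') ∨ (i = i' ∧ k = k' ∧ m = m' ∧ t + D.s i ≤ t') := by
  have hik : i < k + 1 := by have := h.hg; omega
  have hik' : i' < k' + 1 := by have := h'.hg; omega
  rcases lt_trichotomy k k' with hk | hk | hk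
  · left
    have h1 := h.ub
    have h2 := h'.lb
    have h3 : nn (k+1) ≤ nn k' := nn_mono hk
    have h4 := nn_pos k'
    exact ⟨by omega, hk.le⟩
  · subst hk
    by_cases hm : i ≠ i' ∨ m ≠ m'
    · have hfar := D.hF k i hik i' hik' m h.hm m' h'.hm hm
      have h1 := h.memblk
      have h2 := h'.memblk
      rcases hfar with h3 | h3
      · left
        have h4 : (m+2) * nn k ≤ m' * nn k := Nat.mul_le_mul_right _ h3
        have h5 : (m+2) * nn k = (m+1) * nn k + nn k := by ring
        exact ⟨by omega, le_rfl⟩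
      · exfalso
        have h4 : (m'+2) * nn k ≤ m * nn k := Nat.mul_le_mul_right _ h3
        have h5 : (m'+2) * nn k = (m'+1) * nn k + nn k := by ring
        have h6 := nn_pos k
        omega
    · push Not at hm
      obtain ⟨h1, h2⟩ := hm
      subst h1; subst h2
      right
      refine ⟨rfl, rfl, rfl, thin_spacing h.ht h'.ht ?_⟩
      rcases eq_or_lt_of_le htt with h3 | h3
      · exact absurd ⟨rfl, h3⟩ hne
      · exact h3
  · exfalso
    have h1 := h'.ub
    have h2 := h.lb
    have h3 : nn (k'+1) ≤ nn k := nn_mono hk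
    have h4 := nn_pos k
    omega

/-- `l` is covered by the visit `(i,t)` -/
structure Hit (D : Dat 𝕜) (l i t k m : ℕ) : Prop where
  vis : D.Vis i t k m
  le : t ≤ l
  lt : l < t + D.L i

lemma Hit.unique_aux {l i t k m i' t' k' m' : ℕ} (h : Hit D l i t k m) (h' : Hit D l i' t' k' m')
    (htt : t ≤ t') : i = i' ∧ t = t' := by
  by_contra hne
  have h1 := h.lt
  have h2 := h'.le
  have h3 := D.hs i
  have h4 := h.vis.sn
  rcases sep h.vis h'.vis htt hne with h5 | h5
  · have := h5.1
    omega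
  · have := h5.2.2.2
    omega

lemma Hit.unique {l i t k m i' t' k' m' : ℕ} (h : Hit D l i t k m) (h' : Hit D l i' t' k' m') :
    i = i' ∧ t = t' := by
  rcases le_total t t' with h1 | h1
  · exact h.unique_aux h' h1
  · have := h'.unique_aux h h1
    exact ⟨this.1.symm, this.2.symm⟩

variable (D)

open Classical in
/-- the vector -/
def y (l : ℕ) : 𝕜 :=
  if h : ∃ p : ℕ × ℕ, ∃ k m, Hit D l p.1 p.2 k m then D.v h.choose.1 (l - h.choose.2) else 0

variable {D}

lemma y_hit {l i t k m : ℕ} (h : Hit D l i t k m) : D.y l = D.v i (l - t) := by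
  have hex : ∃ p : ℕ × ℕ, ∃ k m, Hit D l p.1 p.2 k m := ⟨(i,t), k, m, h⟩
  unfold y
  rw [dif_pos hex]
  obtain ⟨k', m', h'⟩ := hex.choose_spec
  obtain ⟨h1, h2⟩ := h'.unique h
  rw [h1, h2]

lemma y_not {l : ℕ} (h : D.y l ≠ 0) : ∃ i t k m, Hit D l i t k m := by
  by_contra hne
  apply h
  unfold y
  rw [dif_neg]
  rintro ⟨⟨i, t⟩, k, m, h2⟩
  exact hne ⟨i, t, k, m, h2⟩

lemma Hit.norm_le {l i t k m : ℕ} (h : Hit D l i t k m) : ‖D.y l‖ ≤ D.b i := by
  rw [y_hit h]; exact D.hb _ _

lemma Hit.norm_le' {l i t k m : ℕ} (h : Hit D l i t k m) : ‖D.y l‖ ≤ k := by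
  refine h.norm_le.trans ?_
  have h1 := D.hs i
  have h2 := h.vis.sk
  exact_mod_cast (by omega : D.b i ≤ k)

/-- the windows of `y` are empty -/
lemma window_empty {j l : ℕ} (h1 : nn j / 2 ≤ l) (h2 : l < 2 * nn j) : D.y l = 0 := by
  by_contra hne
  obtain ⟨i, t, k, m, h⟩ := y_not hne
  have h3 := h.le
  have h4 := h.lt
  have h5 := h.vis.lb
  have h6 := h.vis.ub
  have h7 := h.vis.Ln
  rcases le_or_gt j k with hk | hk
  · have := nn_mono hk
    omega
  · have h8 : nn (k+1) ≤ nn j := nn_mono hk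
    have := nn_pos j
    obtain ⟨q, hq⟩ := nn_four j
    omega

lemma y_tends (D : Dat 𝕜) : Tendsto (fun j => P j D.y) atTop (𝓝 0) := by
  have h1 : ∀ j, P j D.y ≤ (√((j:ℝ)+1))⁻¹ := by
    intro j
    unfold P
    have h2 : ∑ m ∈ Icc (nn j / 2) (nn j), ‖D.y m‖ = 0 := by
      refine Finset.sum_eq_zero fun l hl => ?_
      obtain ⟨h3, h4⟩ := Finset.mem_Icc.1 hl
      have := nn_pos j
      rw [window_empty h3 (by omega), norm_zero]
    rw [h2, zero_div, add_zero, ← Real.sqrt_div_self]
    gcongr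
    by_cases hy : D.y j = 0
    · rw [hy, norm_zero]; positivity
    · obtain ⟨i, t, k, m, h⟩ := y_not hy
      refine h.norm_le'.trans (Real.le_sqrt_of_sq_le ?_)
      have h5 := h.vis.lb
      have h6 := h.le
      have h7 := sq_le_nn k
      have h8 : k^2 ≤ (k+1)^2 := Nat.pow_le_pow_left (by omega) 2
      exact_mod_cast (by omega : k^2 ≤ j+1)
  refine squeeze_zero (fun j => P_nonneg j _) h1 ?_
  refine tendsto_inv_atTop_zero.comp (Real.tendsto_sqrt_atTop.comp ?_)
  exact tendsto_atTop_add_const_right _ _ tendsto_natCast_atTop_atTop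

/-- the vector in `X` -/
def yX (D : Dat 𝕜) : X 𝕜 := X.mk D.y D.y_tends

/-- the error -/
def w (D : Dat 𝕜) (i t : ℕ) : ℕ → 𝕜 := fun l => D.y (l + t) - D.v i l

lemma hit_shift {i t k m : ℕ} (h : D.Vis i t k m) {l i' t' k' m' : ℕ} (hl : D.L i ≤ l)
    (h' : Hit D (l+t) i' t' k' m') :
    (t + nn k < t' ∧ k ≤ k') ∨ (i = i' ∧ k = k' ∧ m = m' ∧ t + D.s i ≤ t') := by
  have h3 := D.hs i
  have h3' := D.hs i'
  have h4 := h'.vis.sn
  have h5 := h'.le
  have h6 := h'.lt
  have hne : ¬ (i = i' ∧ t = t') := by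
    rintro ⟨h1, h2⟩
    subst h1; subst h2
    omega
  rcases le_or_gt t t' with h1 | h1
  · exact sep h h'.vis h1 hne
  · exfalso
    have hne' : ¬ (i' = i ∧ t' = t) := fun h => hne ⟨h.1.symm, h.2.symm⟩
    rcases sep h'.vis h h1.le hne' with h7 | h7
    · have := h7.1
      omega
    · have := h7.2.2.2
      omega

lemma w_small {i t k m : ℕ} (h : D.Vis i t k m) {l : ℕ} (hl : l < D.s i) : D.w i t l = 0 := by
  unfold w
  rcases lt_or_ge l (D.L i) with h1 | h1
  · have hh : Hit D (l+t) i t k m := ⟨h, by omega, by omega⟩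
    rw [y_hit hh, Nat.add_sub_cancel, sub_self]
  · rw [D.hv i l h1, sub_zero]
    by_contra hne
    obtain ⟨i', t', k', m', h'⟩ := y_not hne
    have h2 := h'.le
    have h3 := h.sn
    rcases hit_shift h h1 h' with h4 | h4
    · have := h4.1
      omega
    · have := h4.2.2.2
      omega

lemma w_big {i : ℕ} (t : ℕ) {l : ℕ} (hl : D.s i ≤ l) : D.w i t l = D.y (l+t) := by
  unfold w
  have := D.hs i
  rw [D.hv i l (by omega), sub_zero]

/-- coordinates of the error -/
lemma w_coord {i t k m : ℕ} (h : D.Vis i t k m) (j : ℕ) :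
    ‖D.w i t j‖ / (j+1) ≤ (D.b i + 1) / D.s i := by
  have hs0 : (0:ℝ) < D.s i := by
    have := D.hs i
    exact_mod_cast (by omega : 0 < D.s i)
  rcases lt_or_ge j (D.s i) with hj | hj
  · rw [w_small h hj, norm_zero, zero_div]; positivity
  · rw [w_big t hj]
    by_cases hy : D.y (j+t) = 0
    · rw [hy, norm_zero, zero_div]; positivity
    · obtain ⟨i', t', k', m', h'⟩ := y_not hy
      have hLj : D.L i ≤ j := by have := D.hs i; omega
      rcases hit_shift h hLj h' with h4 | h4
      · have h5 : nn k' ≤ j := by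
          have h6 := h'.le
          have h7 := h4.1
          rcases eq_or_lt_of_le h4.2 with h8 | h8
          · rw [← h8]; omega
          · have h9 := h'.vis.lb
            have h10 := h.ub
            have h11 : nn (k+1) ≤ nn k' := nn_mono h8
            omega
        have h6 : (k'+1)^2 ≤ j := (sq_le_nn k').trans h5
        have h7 : ‖D.y (j+t)‖ ≤ k' := h'.norm_le'
        have h8 : D.s i ≤ k' := h.sk.trans h4.2
        have h9 : ((k':ℝ)+1)^2 ≤ j := by exact_mod_cast h6
        have h10 : (D.s i : ℝ) ≤ k' := by exact_mod_cast h8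
        have h11 : (0:ℝ) ≤ D.b i := by positivity
        rw [div_le_div_iff₀ (by positivity) hs0]
        calc ‖D.y (j+t)‖ * D.s i ≤ k' * k' := by gcongr
          _ ≤ ((j:ℝ)+1) := by nlinarith
          _ ≤ (D.b i + 1) * ((j:ℝ)+1) := by nlinarith
      · have h5 : ‖D.y (j+t)‖ ≤ D.b i := by rw [h4.1]; exact h'.norm_le
        have h6 : (D.s i : ℝ) ≤ j := by exact_mod_cast hj
        have h11 : (0:ℝ) ≤ D.b i := by positivity
        rw [div_le_div_iff₀ (by positivity) hs0]
        nlinarith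

/-- number of visits in an interval after `t` -/
lemma count_after {s : ℕ} (hs : 0 < s) {B : Set ℕ} {t n : ℕ} (ht : t ∈ thin s B) (T : Finset ℕ)
    (hT : ∀ x ∈ T, x ∈ thin s B ∧ t < x ∧ x ≤ t + n) : T.card ≤ n / s := by
  have h1 : T.card ≤ (Icc 1 (n/s)).card := by
    refine Finset.card_le_card_of_injOn (fun x => (x - t) / s) ?_ ?_
    · intro x hx
      obtain ⟨h2, h3, h4⟩ := hT x hx
      have h5 := thin_spacing ht h2 h3
      rw [Finset.mem_coe, Finset.mem_Icc]
      refine ⟨(Nat.one_le_div_iff hs).2 (by omega), Nat.div_le_div_right (by omega)⟩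
    · intro x hx x' hx' hxx
      by_contra hne
      obtain ⟨h2, h3, h4⟩ := hT x hx
      obtain ⟨h2', h3', h4'⟩ := hT x' hx'
      simp only at hxx
      rcases lt_or_gt_of_ne hne with h5 | h5
      · have h6 := thin_spacing h2 h2' h5
        have h7 : (x - t) / s + 1 ≤ (x' - t) / s := by
          rw [← Nat.add_div_right _ hs]
          exact Nat.div_le_div_right (by omega)
        omega
      · have h6 := thin_spacing h2' h2 h5
        have h7 : (x' - t) / s + 1 ≤ (x - t) / s := by
          rw [← Nat.add_div_right _ hs]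
          exact Nat.div_le_div_right (by omega)
        omega
  simpa using h1

/-- windows of the error -/
lemma w_window {i t k m : ℕ} (h : D.Vis i t k m) (j : ℕ) :
    (∑ l ∈ Icc (nn j / 2) (nn j), ‖D.w i t l‖) / nn j ≤ D.b i * D.L i / D.s i := by
  classical
  have hs0' : 0 < D.s i := by have := D.hs i; omega
  have hs0 : (0:ℝ) < D.s i := by exact_mod_cast hs0'
  have hn : (0:ℝ) < nn j := by exact_mod_cast nn_pos j
  rcases le_or_gt j k with hjk | hjk
  · have hnjk : nn j ≤ nn k := nn_mono hjk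
    set B : Set ℕ := D.A i ∩ blk (nn k) m with hB
    set T : Finset ℕ := (Ioc t (t + nn j)).filter (· ∈ thin (D.s i) B) with hT
    have hTc : T.card ≤ nn j / D.s i := by
      refine count_after hs0' h.ht T fun x hx => ?_
      rw [hT, Finset.mem_filter, Finset.mem_Ioc] at hx
      exact ⟨hx.2, hx.1.1, hx.1.2⟩
    set W : Finset ℕ := (Icc (nn j / 2) (nn j)).filter (fun l => D.w i t l ≠ 0) with hW
    have hWsub : W ⊆ T.biUnion (fun x => (range (D.L i)).image (fun r => x - t + r)) := by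
      intro l hl
      rw [hW, Finset.mem_filter, Finset.mem_Icc] at hl
      obtain ⟨⟨h1, h2⟩, h3⟩ := hl
      have h4 : D.s i ≤ l := by
        by_contra h5
        exact h3 (w_small h (by omega))
      rw [w_big t h4] at h3
      obtain ⟨i', t', k', m', h'⟩ := y_not h3
      have h5 := h'.le
      have h6 := h'.lt
      have hLl : D.L i ≤ l := by have := D.hs i; omega
      rcases hit_shift h hLl h' with h7 | ⟨h7, h8, h9, h10⟩
      · exfalso
        have := h7.1
        omega
      · subst h7; subst h8; subst h9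
        rw [Finset.mem_biUnion]
        refine ⟨t', ?_, ?_⟩
        · rw [hT, Finset.mem_filter, Finset.mem_Ioc]
          exact ⟨⟨by omega, by omega⟩, h'.vis.ht⟩
        · rw [Finset.mem_image]
          exact ⟨l + t - t', Finset.mem_range.2 (by omega), by omega⟩
    have hWc : W.card ≤ nn j / D.s i * D.L i := by
      refine (Finset.card_le_card hWsub).trans ?_
      refine (Finset.card_biUnion_le_card_mul _ _ (D.L i) fun x _ => ?_).trans ?_
      · exact Finset.card_image_le.trans (by simp)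
      · exact Nat.mul_le_mul_right _ hTc
    have hsum : (∑ l ∈ Icc (nn j / 2) (nn j), ‖D.w i t l‖) ≤ W.card * D.b i := by
      have h1 : (∑ l ∈ Icc (nn j / 2) (nn j), ‖D.w i t l‖) = ∑ l ∈ W, ‖D.w i t l‖ := by
        rw [hW, Finset.sum_filter]
        refine Finset.sum_congr rfl fun l _ => ?_
        split_ifs with h2
        · rfl
        · push Not at h2
          rw [h2, norm_zero]
      rw [h1]
      refine (Finset.sum_le_card_nsmul _ _ (D.b i : ℝ) fun l hl => ?_).trans (by simp)
      rw [hW, Finset.mem_filter, Finset.mem_Icc] at hl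
      obtain ⟨⟨h1, h2⟩, h3⟩ := hl
      have h4 : D.s i ≤ l := by
        by_contra h5
        exact h3 (w_small h (by omega))
      rw [w_big t h4] at h3 ⊢
      obtain ⟨i', t', k', m', h'⟩ := y_not h3
      have h5 := h'.le
      have hLl : D.L i ≤ l := by have := D.hs i; omega
      rcases hit_shift h hLl h' with h7 | ⟨h7, h8, h9, h10⟩
      · exfalso
        have := h7.1
        omega
      · rw [h7]; exact h'.norm_le
    have h1 : (W.card : ℝ) ≤ nn j / D.s i * D.L i := by
      calc (W.card : ℝ) ≤ ((nn j / D.s i * D.L i : ℕ) : ℝ) := by exact_mod_cast hWc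
        _ = ((nn j / D.s i : ℕ) : ℝ) * D.L i := by push_cast; rfl
        _ ≤ _ := by
          gcongr
          exact Nat.cast_div_le
    rw [div_le_iff₀ hn]
    calc _ ≤ (W.card : ℝ) * D.b i := hsum
      _ ≤ (nn j / D.s i * D.L i) * D.b i := by gcongr
      _ = _ := by field_simp
  · have h1 : ∑ l ∈ Icc (nn j / 2) (nn j), ‖D.w i t l‖ = 0 := by
      refine Finset.sum_eq_zero fun l hl => ?_
      obtain ⟨h1, h2⟩ := Finset.mem_Icc.1 hl
      have h3 : nn (k+1) ≤ nn j := nn_mono hjk
      have h4 := h.ub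
      have h5 := h.sn
      have h6 := nn_pos k
      rw [w_big t (by omega), window_empty (j := j) (by omega) (by omega), norm_zero]
    rw [h1, zero_div]; positivity

/-- the main estimate -/
lemma visit_near {i t k m : ℕ} (h : D.Vis i t k m) (j : ℕ) :
    P j (D.w i t) ≤ (D.b i + 1) * (D.L i + 1) / D.s i := by
  have hs0' : 0 < D.s i := by have := D.hs i; omega
  have hs0 : (0:ℝ) < D.s i := by exact_mod_cast hs0'
  have h1 := w_coord h j
  have h2 := w_window h j
  unfold P
  calc _ ≤ ((D.b i : ℝ) + 1) / D.s i + D.b i * D.L i / D.s i := add_le_add h1 h2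
    _ = ((D.b i : ℝ) + 1 + D.b i * D.L i) / D.s i := by rw [← add_div]
    _ ≤ _ := by
      gcongr
      have h11 : (0:ℝ) ≤ D.L i := by positivity
      nlinarith

end Dat

end

end Pool.Agent.X187.FH
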