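import Pool.Agent.X187.FH.Space
import Pool.Agent.X187.FH.Comb

namespace Pool.Agent.X187.FH

open Filter Topology Finset

noncomputable section

lemma cnt_eq_ncard (B : Set ℕ) (x : ℕ) : cnt B x = (B ∩ Set.Iio x).ncard := by
  classical
  unfold cnt
  rw [← Set.ncard_coe_finset]
  congr 1
  ext t
  simp [and_comm]

lemma cnt_split (A : Set ℕ) {a b : ℕ} (h : a ≤ b) :
    cnt A b = cnt A a + cnt (A ∩ Set.Ico a b) b := by
  rw [cnt_eq_ncard, cnt_eq_ncard, cnt_eq_ncard, ← Set.ncard_union_eq]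
  · congr 1
    ext t
    simp only [Set.mem_inter_iff, Set.mem_union, Set.mem_Iio, Set.mem_Ico]
    constructor
    · rintro ⟨h1, h2⟩
      rcases lt_or_ge t a with h3 | h3
      · left; exact ⟨h1, h3⟩
      · right; exact ⟨⟨h1, h3, h2⟩, h2⟩
    · rintro (⟨h1, h2⟩ | ⟨⟨h1, -⟩, h2⟩)
      · exact ⟨h1, by omega⟩
      · exact ⟨h1, h2⟩
  · rw [Set.disjoint_left]
    rintro t ⟨-, h1⟩ ⟨⟨-, h2⟩, -⟩
    rw [Set.mem_Iio] at h1
    have := h2.1
    omega

/-- the `m`-th block of size `n` -/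
def blk (n m : ℕ) : Set ℕ := Set.Ico (m * n) ((m+1) * n)

/-- number of elements of `A` in the block -/
def bcnt (A : Set ℕ) (n m : ℕ) : ℕ := cnt (A ∩ blk n m) ((m+1) * n)

lemma cnt_blk_succ (A : Set ℕ) (n m : ℕ) : cnt A ((m+1)*n) = cnt A (m*n) + bcnt A n m :=
  cnt_split A (Nat.mul_le_mul_right _ (by omega))

lemma bcnt_le (A : Set ℕ) (n m : ℕ) : bcnt A n m ≤ n := by
  have h1 := cnt_blk_succ A n m
  have h2 := cnt_add_le A (m*n) n
  rw [show m*n+n = (m+1)*n by ring] at h2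
  omega

lemma sum_blocks (S M : Set ℕ) (n : ℕ) (q : ℝ) (h : ∀ m ∈ M, q ≤ bcnt S n m) (x : ℕ) :
    q * cnt M x ≤ cnt S (x * n) := by
  induction x with
  | zero => simp [cnt_zero]
  | succ x ih =>
    rw [cnt_blk_succ]
    by_cases hx : x ∈ M
    · rw [cnt_succ_mem hx]
      push_cast
      have := h x hx
      linarith
    · rw [cnt_succ_not hx]
      push_cast
      have : (0:ℝ) ≤ bcnt S n x := by positivity
      linarith

/-- rich blocks of region `k` -/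
def Rich (A : Set ℕ) (d : ℝ) (g k : ℕ) : Set ℕ :=
  {m | g ≤ k ∧ 2 ≤ m ∧ 4 * (m+2) * nn k ≤ nn (k+1) ∧ d / 4 * nn k ≤ bcnt A (nn k) m}

lemma rich_count (A : Set ℕ) {d : ℝ} (hd : 0 < d) {g k : ℕ} (hg : g ≤ k) (x : ℕ)
    (hx : 4 * (x+1) * nn k ≤ nn (k+1)) :
    (cnt A (x * nn k) : ℝ) ≤ (2 + cnt (Rich A d g k) x) * nn k + x * (d/4) * nn k := by
  induction x with
  | zero =>
    rw [zero_mul, cnt_zero]
    push_cast
    positivity
  | succ x ih =>
    have ih := ih (le_trans (Nat.mul_le_mul_right _ (by omega)) hx)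
    have hn : (0:ℝ) < nn k := by exact_mod_cast nn_pos k
    rcases lt_or_ge x 2 with h2 | h2
    · have h3 : (cnt A ((x+1) * nn k) : ℝ) ≤ 2 * nn k := by
        have := cnt_le A ((x+1) * nn k)
        have h4 : (x+1) * nn k ≤ 2 * nn k := Nat.mul_le_mul_right _ (by omega)
        exact_mod_cast this.trans h4
      have h5 : (0:ℝ) ≤ cnt (Rich A d g k) (x+1) * nn k := by positivity
      have h6 : (0:ℝ) ≤ ((x+1 : ℕ):ℝ) * (d/4) * nn k := by positivity
      nlinarith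
    · rw [cnt_blk_succ]
      by_cases h3 : x ∈ Rich A d g k
      · rw [cnt_succ_mem h3]
        have h4 : (bcnt A (nn k) x : ℝ) ≤ nn k := by exact_mod_cast bcnt_le A (nn k) x
        push_cast
        have h6 : (0:ℝ) ≤ (d/4) * nn k := by positivity
        nlinarith
      · rw [cnt_succ_not h3]
        have h4 : (bcnt A (nn k) x : ℝ) ≤ d/4 * nn k := by
          by_contra h5
          push Not at h5
          exact h3 ⟨hg, h2, hx, h5.le⟩
        push_cast
        nlinarith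

lemma interp (f : ℕ → ℕ) (hf : Monotone f) (c : ℝ) (hc : 0 < c) (K k0 : ℕ)
    (h : ∀ k ≥ k0, ∀ x ≥ K, 4 * (x+1) * nn k ≤ nn (k+1) → c * (x * nn k) ≤ f (x * nn k)) :
    ∃ c' : ℝ, 0 < c' ∧ ∃ N1 : ℕ, ∀ N ≥ N1, c' * N ≤ f N := by
  wlog hK : 1 ≤ K generalizing K
  · exact this (K+1) (fun k hk x hx => h k hk x (by omega)) (by omega)
  wlog hk0 : K ≤ k0 generalizing k0
  · exact this (k0+K) (fun k hk x hx => h k (by omega) x hx) (by omega)
  have hKr : (1:ℝ) ≤ K := by exact_mod_cast hK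
  refine ⟨c / (8*K), by positivity, K * nn k0, fun N hN => ?_⟩
  have hex : ∃ k, k0 ≤ k ∧ N < K * nn (k+1) := by
    refine ⟨max k0 N, le_max_left _ _, ?_⟩
    have h1 := le_nn (max k0 N + 1)
    have h2 : N ≤ max k0 N := le_max_right _ _
    calc N < nn (max k0 N + 1) := by omega
      _ ≤ K * nn (max k0 N + 1) := Nat.le_mul_of_pos_left _ hK
  classical
  obtain ⟨k, ⟨hk1, hk2⟩, hmin⟩ : ∃ k, (k0 ≤ k ∧ N < K * nn (k+1)) ∧ ∀ l < k, ¬ (k0 ≤ l ∧ N < K * nn (l+1)) :=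
    ⟨Nat.find hex, Nat.find_spec hex, fun l hl => Nat.find_min hex hl⟩
  have hk3 : K * nn k ≤ N := by
    rcases eq_or_lt_of_le hk1 with h1 | h1
    · rw [← h1]; exact hN
    · have h2 := hmin (k-1) (by omega)
      rw [show k - 1 + 1 = k by omega] at h2
      by_contra h3
      exact h2 ⟨by omega, by omega⟩
  have hn : 0 < nn k := nn_pos k
  have hnr : (0:ℝ) < nn k := by exact_mod_cast hn
  have hNn : nn k ≤ N := le_trans (Nat.le_mul_of_pos_left _ hK) hk3
  rcases le_or_gt (8*N) (nn (k+1)) with hA | hB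
  · have hx1 : K ≤ N / nn k := (Nat.le_div_iff_mul_le hn).2 hk3
    have hx2 : N / nn k * nn k ≤ N := Nat.div_mul_le_self _ _
    have hx3 : 4 * (N / nn k + 1) * nn k ≤ nn (k+1) := by
      calc 4 * (N / nn k + 1) * nn k = 4 * (N / nn k * nn k) + 4 * nn k := by ring
        _ ≤ 8 * N := by omega
        _ ≤ _ := hA
    have h1 := h k hk1 (N / nn k) hx1 hx3
    have h2 : N < (N / nn k + 1) * nn k := by
      have := Nat.lt_div_mul_add (a := N) hn
      calc N < N / nn k * nn k + nn k := this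
        _ = _ := by ring
    have h3 : (N / nn k + 1) * nn k ≤ 2 * (N / nn k * nn k) := by
      have : nn k ≤ N / nn k * nn k := Nat.le_mul_of_pos_left _ (by omega)
      calc (N / nn k + 1) * nn k = N / nn k * nn k + nn k := by ring
        _ ≤ _ := by omega
    have h4 : (N:ℝ) ≤ 2 * ((N / nn k : ℕ) * nn k) := by exact_mod_cast (h2.le.trans h3)
    have h5 : (f (N / nn k * nn k) : ℝ) ≤ f N := by exact_mod_cast hf hx2
    have h6 : c / (8*K) ≤ c / 2 := by
      apply div_le_div_of_nonneg_left hc.le (by norm_num)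
      linarith
    calc c / (8*K) * N ≤ c / 2 * N := by gcongr
      _ ≤ c / 2 * (2 * ((N / nn k : ℕ) * nn k)) := by gcongr
      _ = c * ((N / nn k : ℕ) * nn k) := by ring
      _ ≤ _ := h1
      _ ≤ _ := h5
  · have hx1 : k < 2^(4*k+3) := lt_of_lt_of_le (Nat.lt_two_pow_self (n := k)) (Nat.pow_le_pow_right (by norm_num) (by omega))
    have hx2 : nn (k+1) = 8 * (2^(4*k+3) * nn k) := by
      rw [nn_succ]
      have : (4:ℕ)^(2*k+3) = 8 * 2^(4*k+3) := by
        rw [show (4:ℕ) = 2^2 by norm_num, ← pow_mul, show (8:ℕ) = 2^3 by norm_num, ← pow_add]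
        congr 1; ring
      rw [this]; ring
    have hx3 : 4 * (2^(4*k+3) + 1) * nn k ≤ nn (k+1) := by
      rw [hx2]
      have : nn k ≤ 2^(4*k+3) * nn k := Nat.le_mul_of_pos_left _ (by omega)
      calc 4 * (2^(4*k+3) + 1) * nn k = 4 * (2^(4*k+3) * nn k) + 4 * nn k := by ring
        _ ≤ _ := by omega
    have h1 := h k hk1 (2^(4*k+3)) (by omega) hx3
    have h2 : (f (2^(4*k+3) * nn k) : ℝ) ≤ f N := by exact_mod_cast hf (by omega)
    have h3 : (N:ℝ) ≤ K * (8 * ((2^(4*k+3) : ℕ) * nn k)) := by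
      rw [hx2] at hk2
      exact_mod_cast hk2.le
    calc c / (8*K) * N ≤ c / (8*K) * (K * (8 * ((2^(4*k+3) : ℕ) * nn k))) := by gcongr
      _ = c * ((2^(4*k+3) : ℕ) * nn k) := by field_simp
      _ ≤ _ := h1
      _ ≤ _ := h2

/-- main density estimate -/
lemma dens_main (A : Set ℕ) {d : ℝ} (hd : 0 < d) (N0 : ℕ) (hA : ∀ N ≥ N0, d * N ≤ cnt A N)
    (i g s : ℕ) (hs : 1 ≤ s) (hig : i ≤ g) (m : ℕ → ℕ) (hm2 : ∀ j, 2 ≤ m j)
    (hm : ∀ j, i < j → 48 * 2^j ≤ d * m j)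
    (M : ℕ → ℕ → Set ℕ) (R : ℕ → ℕ → Set ℕ) (hR : ∀ k, R k i = Rich A d g k)
    (hMR : ∀ k, i < k + 1 → M k i ⊆ R k i)
    (hM : ∀ k, ∀ j < k+1, ∀ x, cnt (M k j) x =
        cnt {a | a ∈ R k j ∧ ∀ j', j < j' → j' < k+1 → ∀ b ∈ M k j', Far a b} x / m j)
    (S : Set ℕ) (hS : ∀ k, g ≤ k → ∀ b ∈ M k i, thin s (A ∩ blk (nn k) b) ⊆ S) :
    ∃ c' : ℝ, 0 < c' ∧ ∃ N1 : ℕ, ∀ N ≥ N1, c' * N ≤ cnt S N := by
  have hsr : (1:ℝ) ≤ s := by exact_mod_cast hs
  have hmi : (2:ℝ) ≤ m i := by exact_mod_cast hm2 i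
  obtain ⟨K1, hK1⟩ := exists_nat_ge (8 / d)
  obtain ⟨K2, hK2⟩ := exists_nat_ge (8 * m i / d)
  obtain ⟨K3, hK3⟩ := exists_nat_ge (8 * s / d)
  refine interp (cnt S) (cnt_mono S) (d^2 / (64 * m i * s)) (by positivity) (K1+K2+1) (g+N0+K3) ?_
  intro k hk x hx hx2
  have hn : (0:ℝ) < nn k := by exact_mod_cast nn_pos k
  have hnk := le_nn k
  have hgk : g ≤ k := by omega
  have hik : i < k + 1 := by omega
  have hxr : (K1:ℝ) + K2 + 1 ≤ x := by exact_mod_cast hx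
  have hK1n : (0:ℝ) ≤ K1 := by positivity
  have hK2n : (0:ℝ) ≤ K2 := by positivity
  have hx0 : (1:ℝ) ≤ x := by linarith
  -- step b
  have hb1 : d * ((x * nn k : ℕ) : ℝ) ≤ cnt A (x * nn k) := by
    apply hA
    have h1 : 1 ≤ x := by omega
    calc N0 ≤ nn k := by omega
      _ ≤ x * nn k := Nat.le_mul_of_pos_left _ h1
  have hb2 := rich_count A hd hgk x hx2
  have hb3 : d / 2 * x ≤ cnt (Rich A d g k) x := by
    push_cast at hb1
    have h1 : d * (x * nn k) ≤ (2 + cnt (Rich A d g k) x) * nn k + x * (d/4) * nn k := hb1.trans hb2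
    have h2 : d * x ≤ (2 + cnt (Rich A d g k) x) + x * (d/4) := by
      have h3 : (d * x) * nn k ≤ ((2 + cnt (Rich A d g k) x) + x * (d/4)) * nn k := by linarith
      exact le_of_mul_le_mul_right h3 hn
    have h3 : 8 ≤ d * x := by
      rw [div_le_iff₀ hd] at hK1
      nlinarith
    linarith
  -- step a
  have ha1 : ∀ j ∈ Ioo i (k+1), (cnt (M k j) (x+1) : ℝ) ≤ (x+1) * d / 48 * (1/2)^j := by
    intro j hj
    obtain ⟨hj1, hj2⟩ := Finset.mem_Ioo.1 hj
    rw [hM k j hj2]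
    have h1 : (0:ℝ) < m j := by have := hm2 j; exact_mod_cast (by omega : 0 < m j)
    refine (Nat.cast_div_le).trans ?_
    rw [div_le_iff₀ h1]
    have h2 := hm j hj1
    have h3 : (cnt {a | a ∈ R k j ∧ ∀ j', j < j' → j' < k+1 → ∀ b ∈ M k j', Far a b} (x+1) : ℝ) ≤ x + 1 := by
      exact_mod_cast cnt_le _ _
    refine h3.trans ?_
    have h4 : (1:ℝ) ≤ d * m j / 48 * (1/2)^j := by
      rw [one_div, inv_pow, ← div_eq_mul_inv, le_div_iff₀ (by positivity)]
      linarith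
    calc (x:ℝ)+1 = (x+1) * 1 := by ring
      _ ≤ (x+1) * (d * m j / 48 * (1/2)^j) := by gcongr
      _ = _ := by ring
  have ha2 : (3:ℝ) * ∑ j ∈ Ioo i (k+1), (cnt (M k j) (x+1) : ℝ) ≤ (x+1) * d / 8 := by
    have h1 : ∑ j ∈ Ioo i (k+1), (cnt (M k j) (x+1) : ℝ) ≤ (x+1) * d / 48 * 2 := by
      refine (Finset.sum_le_sum ha1).trans ?_
      rw [← Finset.mul_sum]
      gcongr
      refine le_trans ?_ (sum_geometric_two_le (k+1))
      refine Finset.sum_le_sum_of_subset_of_nonneg (fun j hj => ?_) (fun _ _ _ => by positivity)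
      exact Finset.mem_range.2 (Finset.mem_Ioo.1 hj).2
    linarith
  -- step c
  set Av : Set ℕ := {a | a ∈ R k i ∧ ∀ j', i < j' → j' < k+1 → ∀ b ∈ M k j', Far a b} with hAv
  have hc1 : d / 4 * x ≤ cnt Av x := by
    have h1 := cnt_avail (r := k+1) (i := i) (R k i) (M k) x
    have h2 : (cnt (R k i) x : ℝ) ≤ cnt Av x + 3 * ∑ j ∈ Ioo i (k+1), (cnt (M k j) (x+1) : ℝ) := by
      exact_mod_cast h1
    rw [hR k] at h2
    nlinarith
  -- step d
  have hd1 : d / (8 * m i) * x ≤ cnt (M k i) x := by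
    rw [hM k i hik]
    have h1 : (cnt Av x : ℝ) < m i * ((cnt Av x / m i : ℕ) + 1) := by
      have := Nat.lt_mul_div_succ (cnt Av x) (by have := hm2 i; omega : 0 < m i)
      exact_mod_cast this
    have h2 : 8 * (m i:ℝ) ≤ d * x := by
      rw [div_le_iff₀ hd] at hK2
      nlinarith
    rw [div_mul_eq_mul_div, div_le_iff₀ (by positivity)]
    nlinarith
  -- step e
  have he1 : ∀ b ∈ M k i, d / (8*s) * nn k ≤ bcnt S (nn k) b := by
    intro b hb
    have hbR : b ∈ Rich A d g k := by rw [← hR k]; exact hMR k hik hb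
    have h1 : cnt (thin s (A ∩ blk (nn k) b)) ((b+1) * nn k) ≤ bcnt S (nn k) b := by
      have hsub : thin s (A ∩ blk (nn k) b) ⊆ S ∩ blk (nn k) b :=
        fun t ht => ⟨hS k hgk b hb ht, (thin_sub _ _ ht).2⟩
      exact cnt_mono_set hsub _
    rw [cnt_thin] at h1
    have h2 : (((cnt (A ∩ blk (nn k) b) ((b+1) * nn k)) / s : ℕ) : ℝ) ≤ bcnt S (nn k) b := by
      exact_mod_cast h1
    refine le_trans ?_ h2
    have h3 := hbR.2.2.2
    change d / 4 * nn k ≤ (cnt (A ∩ blk (nn k) b) ((b+1) * nn k) : ℝ) at h3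
    set C := cnt (A ∩ blk (nn k) b) ((b+1) * nn k) with hC
    have h4 : (C : ℝ) < s * ((C / s : ℕ) + 1) := by
      have := Nat.lt_mul_div_succ C (by omega : 0 < s)
      exact_mod_cast this
    have h5 : 8 * (s:ℝ) ≤ d * nn k := by
      rw [div_le_iff₀ hd] at hK3
      have h6 : (K3:ℝ) ≤ nn k := by exact_mod_cast (by omega : K3 ≤ nn k)
      nlinarith
    rw [div_mul_eq_mul_div, div_le_iff₀ (by positivity)]
    nlinarith
  -- step f
  have hf := sum_blocks S (M k i) (nn k) _ he1 x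
  calc d^2 / (64 * m i * s) * (x * nn k) = d / (8*s) * nn k * (d / (8 * m i) * x) := by
        field_simp; ring
    _ ≤ d / (8*s) * nn k * cnt (M k i) x := by gcongr
    _ ≤ _ := hf

end

end Pool.Agent.X187.FH
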