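import Pool.Agent.X187.FH.Cons

namespace Pool.Agent.X187.FH

open Filter Topology Finset

noncomputable section

/-- the density quotient -/
def dq (A : Set ℕ) (N : ℕ) : ℝ := ((A ∩ Set.Icc 1 N).ncard : ℝ) / N

lemma fin_inter (A : Set ℕ) (N : ℕ) : (A ∩ Set.Icc 1 N).Finite :=
  (Set.finite_Icc 1 N).subset Set.inter_subset_right

lemma ncard_le_cnt (A : Set ℕ) (N : ℕ) : (A ∩ Set.Icc 1 N).ncard ≤ cnt A N + 1 := by
  refine le_trans ?_ (cnt_succ_le A N)
  rw [cnt_eq_ncard]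
  refine Set.ncard_le_ncard (fun t ht => ⟨ht.1, ?_⟩) ((Set.finite_Iio _).subset Set.inter_subset_right)
  have := ht.2.2
  rw [Set.mem_Iio]; omega

lemma cnt_le_ncard (A : Set ℕ) (N : ℕ) : cnt A N ≤ (A ∩ Set.Icc 1 N).ncard + 1 := by
  rw [cnt_eq_ncard]
  have h1 : A ∩ Set.Iio N ⊆ insert 0 (A ∩ Set.Icc 1 N) := by
    intro t ht
    rcases Nat.eq_zero_or_pos t with h | h
    · left; exact h
    · right
      have := ht.2
      rw [Set.mem_Iio] at this
      exact ⟨ht.1, h, this.le⟩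
  exact (Set.ncard_le_ncard h1 ((fin_inter A N).insert 0)).trans (Set.ncard_insert_le _ _)

lemma dq_nonneg (A : Set ℕ) (N : ℕ) : 0 ≤ dq A N := by unfold dq; positivity

lemma dq_le_one (A : Set ℕ) (N : ℕ) : dq A N ≤ 1 := by
  unfold dq
  refine div_le_one_of_le₀ ?_ (by positivity)
  have h1 : (A ∩ Set.Icc 1 N).ncard ≤ (Set.Icc 1 N).ncard :=
    Set.ncard_le_ncard Set.inter_subset_right (Set.finite_Icc 1 N)
  have h2 : (Set.Icc 1 N).ncard = N := by
    rw [← Finset.coe_Icc, Set.ncard_coe_finset]; simp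
  rw [h2] at h1
  exact_mod_cast h1

lemma dq_bddBelow (A : Set ℕ) : IsBoundedUnder (· ≥ ·) atTop (dq A) :=
  isBoundedUnder_of ⟨0, dq_nonneg A⟩

lemma dq_bddAbove (A : Set ℕ) : IsBoundedUnder (· ≤ ·) atTop (dq A) :=
  isBoundedUnder_of ⟨1, dq_le_one A⟩

lemma mem_familyD (A : Set ℕ) :
    A ∈ familyD ↔ ∃ d : ℝ, 0 < d ∧ ∃ N0 : ℕ, ∀ N ≥ N0, d * N ≤ cnt A N := by
  change 0 < liminf (dq A) atTop ↔ _
  constructor
  · intro h
    have h1 : ∀ᶠ N in atTop, liminf (dq A) atTop / 2 < dq A N :=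
      eventually_lt_of_lt_liminf (by linarith) (dq_bddBelow A)
    set δ := liminf (dq A) atTop with hδ
    obtain ⟨N1, hN1⟩ := eventually_atTop.1 h1
    obtain ⟨N2, hN2⟩ := exists_nat_ge (4 / δ)
    refine ⟨δ / 4, by positivity, N1 + N2 + 1, fun N hN => ?_⟩
    have h2 := hN1 N (by omega)
    have hN0 : (0:ℝ) < N := by exact_mod_cast (by omega : 0 < N)
    unfold dq at h2
    rw [lt_div_iff₀ hN0] at h2
    have h3 : ((A ∩ Set.Icc 1 N).ncard : ℝ) ≤ cnt A N + 1 := by exact_mod_cast ncard_le_cnt A N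
    have h4 : (N2 : ℝ) ≤ N := by exact_mod_cast (by omega : N2 ≤ N)
    rw [div_le_iff₀ h] at hN2
    nlinarith
  · rintro ⟨d, hd, N0, hN0⟩
    obtain ⟨N2, hN2⟩ := exists_nat_ge (2 / d)
    have h1 : ∀ᶠ N in atTop, d / 2 ≤ dq A N := by
      filter_upwards [eventually_ge_atTop (N0 + N2 + 1)] with N hN
      have h2 := hN0 N (by omega)
      have hNp : (0:ℝ) < N := by exact_mod_cast (by omega : 0 < N)
      unfold dq
      rw [le_div_iff₀ hNp]
      have h3 : (cnt A N : ℝ) ≤ (A ∩ Set.Icc 1 N).ncard + 1 := by exact_mod_cast cnt_le_ncard A N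
      have h4 : (N2 : ℝ) ≤ N := by exact_mod_cast (by omega : N2 ≤ N)
      rw [div_le_iff₀ hd] at hN2
      nlinarith
    have h2 : d / 2 ≤ liminf (dq A) atTop :=
      le_liminf_of_le (dq_bddAbove A).isCoboundedUnder_ge h1
    linarith

variable {𝕜 : Type} [RCLike 𝕜]

/-- every non-empty open set contains a ball around a finite vector -/
lemma exists_ball (V : Set (X 𝕜)) (hV : IsOpen V) (hne : V.Nonempty) :
    ∃ (v : ℕ → 𝕜) (L b s : ℕ), (∀ m, L ≤ m → v m = 0) ∧ (∀ m, ‖v m‖ ≤ b) ∧ L + b + 1 ≤ s ∧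
      ∀ z : X 𝕜, (∀ j, P j (z.val - v) ≤ ((b:ℝ)+1) * (L+1) / s) → z ∈ V := by
  obtain ⟨u, hu⟩ := hne
  obtain ⟨ε, hε, hball⟩ := Metric.isOpen_iff.1 hV u hu
  obtain ⟨L, hL⟩ := exists_tr_near u (by positivity : 0 < ε / 3)
  obtain ⟨b, hb⟩ : ∃ b : ℕ, ∀ m, ‖trunc L u.val m‖ ≤ b := by
    obtain ⟨b, hb⟩ := exists_nat_ge (∑ m ∈ range L, ‖u.val m‖)
    refine ⟨b, fun m => le_trans ?_ hb⟩
    rcases lt_or_ge m L with h | h
    · rw [trunc_of_lt _ _ h]
      exact Finset.single_le_sum (f := fun m => ‖u.val m‖) (fun _ _ => norm_nonneg _) (Finset.mem_range.2 h)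
    · rw [trunc_of_le _ _ h, norm_zero]; positivity
  obtain ⟨s0, hs0⟩ := exists_nat_ge (((b:ℝ)+1) * (L+1) / (ε/3))
  refine ⟨trunc L u.val, L, b, L + b + 1 + s0, fun m hm => trunc_of_le _ _ hm, hb, by omega, ?_⟩
  intro z hz
  apply hball
  rw [Metric.mem_ball, dist_eq_norm]
  have h1 : ‖z - X.tr L u.val‖ ≤ ε / 3 := by
    refine X.norm_le fun j => ?_
    refine (hz j).trans ?_
    have hpos : (0:ℝ) < ((L + b + 1 + s0 : ℕ) : ℝ) := by exact_mod_cast (by omega : 0 < L + b + 1 + s0)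
    rw [div_le_iff₀ hpos]
    rw [div_le_iff₀ (by positivity)] at hs0
    have h2 : (s0:ℝ) ≤ ((L + b + 1 + s0 : ℕ) : ℝ) := by exact_mod_cast (by omega : s0 ≤ L + b + 1 + s0)
    nlinarith
  have h2 : ‖z - u‖ ≤ ‖z - X.tr L u.val‖ + ‖X.tr L u.val - u‖ := norm_sub_le_norm_sub_add_norm_sub _ _ _
  rw [norm_sub_rev (X.tr L u.val) u] at h2
  linarith

lemma heredD_nat (V : ℕ → Set (X 𝕜)) (A : ℕ → Set ℕ) (hV : ∀ i, IsOpen (V i))
    (hne : ∀ i, (V i).Nonempty) (hA : ∀ i, A i ∈ familyD) :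
    ∃ x : X 𝕜, ∀ i, visits (TT : X 𝕜 → X 𝕜) x (V i) ∩ A i ∈ familyD := by
  choose v L b s hv hb hs hnear using fun i => exists_ball (V i) (hV i) (hne i)
  choose d hd N0 hN0 using fun i => (mem_familyD (A i)).1 (hA i)
  -- the frequencies
  let m : ℕ → ℕ := fun j => ⌈48 * 2^j * ∑ i ∈ range j, 1 / d i⌉₊ + 2
  have hm2 : ∀ j, 2 ≤ m j := fun j => by simp only [m]; omega
  have hm : ∀ i j, i < j → 48 * 2^j ≤ d i * m j := by
    intro i j hij
    have h1 : 48 * 2^j * ∑ i ∈ range j, 1 / d i ≤ m j := by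
      refine (Nat.le_ceil _).trans ?_
      exact_mod_cast (by simp only [m]; omega : ⌈48 * 2^j * ∑ i ∈ range j, 1 / d i⌉₊ ≤ m j)
    have h2 : 1 / d i ≤ ∑ i ∈ range j, 1 / d i :=
      Finset.single_le_sum (f := fun i => 1 / d i) (fun i _ => by have := hd i; positivity)
        (Finset.mem_range.2 hij)
    have h3 : 48 * 2^j * (1 / d i) ≤ m j := le_trans (by gcongr) h1
    have h4 := hd i
    rw [mul_one_div, div_le_iff₀ h4] at h3
    linarith
  choose M hM1 hM2 hM3 using fun k => pick (k+1) (fun i => Rich (A i) (d i) (i + s i) k) m hm2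
  let D : Dat 𝕜 :=
    { v := v, L := L, b := b, s := s, A := A, d := d, M := M, hv := hv, hb := hb, hs := hs
      hR := hM1, hF := hM2 }
  refine ⟨D.yX, fun i => ?_⟩
  rw [mem_familyD]
  refine dens_main (A i) (hd i) (N0 i) (hN0 i) i (i + s i) (s i) (by have := hs i; omega) (by omega)
    m hm2 (fun j hij => hm i j hij) M (fun k i => Rich (A i) (d i) (i + s i) k) (fun k => rfl)
    (fun k hk => hM1 k i hk) (fun k j hj x => hM3 k j hj x) _ ?_
  intro k hk bb hbb t ht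
  have hvis : D.Vis i t k bb := ⟨hk, hbb, ht⟩
  refine ⟨?_, (thin_sub _ _ ht).1⟩
  apply hnear i
  intro j
  have h1 := Dat.visit_near hvis j
  refine le_trans (le_of_eq ?_) h1
  congr 1
  funext l
  rw [Pi.sub_apply, TT_iter]
  rfl

theorem heredD : HereditarilyHypercyclic familyD (TT : X 𝕜 → X 𝕜) := by
  intro I _ V A hV hne hA
  rcases isEmpty_or_nonempty I with h | h
  · exact ⟨0, fun i => (h.false i).elim⟩
  · obtain ⟨e, he⟩ := exists_surjective_nat I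
    obtain ⟨x, hx⟩ := heredD_nat (fun n => V (e n)) (fun n => A (e n)) (fun n => hV _)
      (fun n => hne _) (fun n => hA _)
    refine ⟨x, fun i => ?_⟩
    obtain ⟨n, rfl⟩ := he i
    exact hx n

/-- the windows -/
def A0 : Set ℕ := {n | ∃ k, nn k / 2 ≤ n ∧ n ≤ nn k}

lemma A0_upper : A0 ∈ familyU := by
  change 0 < limsup (dq A0) atTop
  have h1 : ∃ᶠ N in atTop, (1/2 : ℝ) ≤ dq A0 N := by
    rw [Filter.frequently_atTop]
    intro a
    refine ⟨nn a, by have := le_nn a; omega, ?_⟩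
    unfold dq
    have hn : (0:ℝ) < nn a := by exact_mod_cast nn_pos a
    rw [le_div_iff₀ hn]
    have h2 : Set.Icc (nn a / 2) (nn a) ⊆ A0 ∩ Set.Icc 1 (nn a) := by
      intro n hn
      obtain ⟨q, hq⟩ := nn_four a
      have := nn_pos a
      exact ⟨⟨a, hn.1, hn.2⟩, by have := hn.1; omega, hn.2⟩
    have h3 := Set.ncard_le_ncard h2 (fin_inter _ _)
    rw [← Finset.coe_Icc, Set.ncard_coe_finset, Nat.card_Icc] at h3
    have h4 : nn a ≤ 2 * (A0 ∩ Set.Icc 1 (nn a)).ncard := by omega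
    have h5 : (nn a : ℝ) ≤ 2 * (A0 ∩ Set.Icc 1 (nn a)).ncard := by exact_mod_cast h4
    linarith
  have h2 : (1/2 : ℝ) ≤ limsup (dq A0) atTop := le_limsup_of_frequently_le h1 (dq_bddAbove A0)
  linarith

/-- the open set -/
def V0 (𝕜 : Type) [RCLike 𝕜] : Set (X 𝕜) := {x | 1 < ‖x.val 0‖}

lemma V0_open : IsOpen (V0 𝕜) := by
  let f : X 𝕜 →L[𝕜] 𝕜 := LinearMap.mkContinuous
    { toFun := fun y => y.val 0
      map_add' := fun _ _ => rfl
      map_smul' := fun _ _ => rfl } 1 (by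
    intro y
    have := y.coord_le 0
    change ‖y.val 0‖ ≤ 1 * ‖y‖
    simpa using this)
  have hf : Continuous (fun x : X 𝕜 => ‖x.val 0‖) := (continuous_norm.comp f.continuous)
  exact isOpen_lt continuous_const hf

lemma V0_nonempty : (V0 𝕜).Nonempty := by
  refine ⟨(2:𝕜) • ee 0, ?_⟩
  change 1 < ‖((2:𝕜) • (Pi.single 0 (1:𝕜) : ℕ → 𝕜)) 0‖
  rw [Pi.smul_apply, Pi.single_eq_same, smul_eq_mul, mul_one, RCLike.norm_ofNat]
  norm_num

lemma mem_visits (x : X 𝕜) (n : ℕ) : n ∈ visits (TT : X 𝕜 → X 𝕜) x (V0 𝕜) ↔ 1 < ‖x.val n‖ := by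
  change 1 < ‖((TT : X 𝕜 → X 𝕜)^[n] x).val 0‖ ↔ _
  rw [TT_iter, zero_add]

lemma window_card (x : X 𝕜) (j : ℕ) :
    (((Icc (nn j / 2) (nn j)).filter (fun m => 1 < ‖x.val m‖)).card : ℝ) ≤ nn j * P j x.val := by
  refine le_trans ?_ (window_le_P j x.val)
  rw [Finset.card_eq_sum_ones, Finset.sum_filter]
  push_cast
  refine Finset.sum_le_sum fun m _ => ?_
  split_ifs with h
  · exact h.le
  · exact norm_nonneg _

lemma dens_zero (x : X 𝕜) :
    Tendsto (dq (visits (TT : X 𝕜 → X 𝕜) x (V0 𝕜) ∩ A0)) atTop (𝓝 0) := by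
  rw [Metric.tendsto_atTop]
  intro ε hε
  obtain ⟨J, hJ⟩ := Metric.tendsto_atTop.1 x.tends (ε/4) (by positivity)
  obtain ⟨K, hK⟩ := exists_nat_gt (8/ε)
  refine ⟨nn (J + K + 1), fun N hN => ?_⟩
  rw [Real.dist_eq, sub_zero, abs_of_nonneg (dq_nonneg _ _)]
  classical
  have hex : ∃ k, 2 * N < nn (k+2) := ⟨2*N, by have := le_nn (2*N+2); omega⟩
  obtain ⟨k, hk1, hmin⟩ : ∃ k, 2 * N < nn (k+2) ∧ ∀ l < k, ¬ 2 * N < nn (l+2) :=
    ⟨Nat.find hex, Nat.find_spec hex, fun l hl => Nat.find_min hex hl⟩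
  have hk0 : J + K ≤ k := by
    by_contra h
    have h1 : nn (k+2) ≤ nn (J+K+1) := nn_mono (by omega)
    omega
  have hk2 : nn (k+1) ≤ 2 * N := by
    rcases Nat.eq_zero_or_pos k with h | h
    · subst h
      have h1 : nn (0+1) ≤ nn (J+K+1) := nn_mono (by omega)
      omega
    · have h1 := hmin (k-1) (by omega)
      rw [show k - 1 + 2 = k + 1 by omega] at h1
      omega
  have hNp : (0:ℝ) < N := by
    have := nn_pos (k+1)
    exact_mod_cast (by omega : 0 < N)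
  set W : Finset ℕ := (Icc (nn (k+1) / 2) (nn (k+1))).filter (fun m => 1 < ‖x.val m‖) with hW
  have hsub : (visits (TT : X 𝕜 → X 𝕜) x (V0 𝕜) ∩ A0) ∩ Set.Icc 1 N ⊆
      ((range (nn k + 1) ∪ W : Finset ℕ) : Set ℕ) := by
    rintro n ⟨⟨h1, j, h2, h3⟩, h4, h5⟩
    rw [mem_visits] at h1
    rw [Finset.mem_coe, Finset.mem_union, Finset.mem_range]
    obtain ⟨q, hq⟩ := nn_four j
    have h6 : nn j < nn (k+2) := by omega
    have h7 : j < k + 2 := nn_strictMono.lt_iff_lt.1 h6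
    rcases eq_or_lt_of_le (show j ≤ k + 1 by omega) with h8 | h8
    · right
      rw [hW, Finset.mem_filter, Finset.mem_Icc, ← h8]
      exact ⟨⟨h2, h3⟩, h1⟩
    · left
      have : nn j ≤ nn k := nn_mono (by omega)
      omega
  have h1 := Set.ncard_le_ncard hsub (Finset.finite_toSet _)
  rw [Set.ncard_coe_finset] at h1
  have h2 : ((visits (TT : X 𝕜 → X 𝕜) x (V0 𝕜) ∩ A0) ∩ Set.Icc 1 N).ncard ≤ (nn k + 1) + W.card := by
    refine h1.trans ((Finset.card_union_le _ _).trans ?_)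
    rw [Finset.card_range]
  have h3 : (W.card : ℝ) ≤ nn (k+1) * P (k+1) x.val := window_card x (k+1)
  have h4 : P (k+1) x.val < ε/4 := by
    have := hJ (k+1) (by omega)
    rwa [Real.dist_eq, sub_zero, abs_of_nonneg (P_nonneg _ _)] at this
  have h5 : (nn (k+1) : ℝ) ≤ 2 * N := by exact_mod_cast hk2
  have h6 : (W.card : ℝ) ≤ ε/2 * N := by
    have h7 : (nn (k+1) : ℝ) * P (k+1) x.val ≤ (2 * N) * (ε/4) :=
      mul_le_mul h5 h4.le (P_nonneg _ _) (by positivity)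
    linarith
  have h8 : ((nn k + 1 : ℕ) : ℝ) * (8/ε) < 4 * N := by
    have h9 : (nn k + 1) * K ≤ 2 * N := by
      refine le_trans ?_ hk2
      rw [nn_succ]
      have h10 : nn k + 1 ≤ 2 * nn k := by have := nn_pos k; omega
      have h11 : 2 * K ≤ 4^(2*k+3) := by
        have : k < 4^k := Nat.lt_pow_self (by norm_num)
        calc 2 * K ≤ 2 * 4^k := by omega
          _ ≤ 4^1 * 4^k := by omega
          _ = 4^(1+k) := by rw [pow_add]
          _ ≤ _ := Nat.pow_le_pow_right (by norm_num) (by omega)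
      calc (nn k + 1) * K ≤ (2 * nn k) * K := Nat.mul_le_mul_right _ h10
        _ = (2 * K) * nn k := by ring
        _ ≤ _ := Nat.mul_le_mul_right _ h11
    have h10 : ((nn k + 1 : ℕ) : ℝ) * K ≤ 2 * N := by exact_mod_cast h9
    have h11 : ((nn k + 1 : ℕ) : ℝ) * (8/ε) ≤ ((nn k + 1 : ℕ) : ℝ) * K := by gcongr
    linarith
  have h9 : ((nn k + 1 : ℕ) : ℝ) < ε/2 * N := by
    rw [mul_div_assoc', div_lt_iff₀ hε] at h8
    linarith
  unfold dq
  rw [div_lt_iff₀ hNp]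
  have h10 : (((visits (TT : X 𝕜 → X 𝕜) x (V0 𝕜) ∩ A0) ∩ Set.Icc 1 N).ncard : ℝ) ≤
      ((nn k + 1 : ℕ) : ℝ) + W.card := by exact_mod_cast h2
  linarith

lemma upper_zero (x : X 𝕜) : upperDensity (visits (TT : X 𝕜 → X 𝕜) x (V0 𝕜) ∩ A0) = 0 :=
  (dens_zero x).limsup_eq

theorem not_heredU : ¬ HereditarilyHypercyclic familyU (TT : X 𝕜 → X 𝕜) := by
  intro h
  obtain ⟨x, hx⟩ := h Unit (fun _ => V0 𝕜) (fun _ => A0) (fun _ => V0_open) (fun _ => V0_nonempty)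
    (fun _ => A0_upper)
  have h1 : 0 < upperDensity (visits (TT : X 𝕜 → X 𝕜) x (V0 𝕜) ∩ A0) := hx ()
  rw [upper_zero] at h1
  exact lt_irrefl _ h1

end

end Pool.Agent.X187.FH
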