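import Pool.Agent.X187.FH.Spec

namespace Pool.Agent.X187.FH

open Filter Topology Finset

noncomputable section

/-- the fast sequence -/
def nn (k : ℕ) : ℕ := 4 ^ ((k+1)^2)

lemma nn_pos (k : ℕ) : 0 < nn k := by unfold nn; positivity

lemma nn_succ (k : ℕ) : nn (k+1) = 4 ^ (2*k+3) * nn k := by
  unfold nn; rw [← pow_add]; congr 1; ring

lemma nn_four (k : ℕ) : 4 ∣ nn k := by
  unfold nn
  exact dvd_pow_self 4 (by positivity)

lemma sq_le_nn (k : ℕ) : (k+1)^2 ≤ nn k := by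
  unfold nn
  exact (Nat.lt_pow_self (by norm_num)).le

lemma le_nn (k : ℕ) : k + 1 ≤ nn k := by
  have := sq_le_nn k
  nlinarith

lemma nn_strictMono : StrictMono nn := by
  refine strictMono_nat_of_lt_succ fun k => ?_
  unfold nn
  exact Nat.pow_lt_pow_right (by norm_num) (Nat.pow_lt_pow_left (by omega) (by norm_num))

lemma nn_mono : Monotone nn := nn_strictMono.monotone

variable (𝕜 : Type) [RCLike 𝕜]

/-- the `j`-th seminorm -/
def P {𝕜 : Type} [RCLike 𝕜] (j : ℕ) (y : ℕ → 𝕜) : ℝ :=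
  ‖y j‖ / (j + 1) + (∑ m ∈ Icc (nn j / 2) (nn j), ‖y m‖) / nn j

variable {𝕜}

lemma P_nonneg (j : ℕ) (y : ℕ → 𝕜) : 0 ≤ P j y := by
  unfold P; positivity

lemma P_zero (j : ℕ) : P j (0 : ℕ → 𝕜) = 0 := by simp [P]

lemma P_add (j : ℕ) (y z : ℕ → 𝕜) : P j (y + z) ≤ P j y + P j z := by
  unfold P
  have h1 : ‖(y + z) j‖ / ((j:ℝ) + 1) ≤ ‖y j‖ / (j + 1) + ‖z j‖ / (j+1) := by
    rw [← add_div]
    gcongr
    exact norm_add_le _ _
  have h2 : (∑ m ∈ Icc (nn j / 2) (nn j), ‖(y + z) m‖) / (nn j : ℝ) ≤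
      (∑ m ∈ Icc (nn j / 2) (nn j), ‖y m‖) / nn j + (∑ m ∈ Icc (nn j / 2) (nn j), ‖z m‖) / nn j := by
    rw [← add_div, ← Finset.sum_add_distrib]
    gcongr
    exact norm_add_le _ _
  linarith

lemma P_smul (j : ℕ) (c : 𝕜) (y : ℕ → 𝕜) : P j (c • y) = ‖c‖ * P j y := by
  unfold P
  simp only [Pi.smul_apply, smul_eq_mul, norm_mul, ← Finset.mul_sum]
  ring

lemma P_neg (j : ℕ) (y : ℕ → 𝕜) : P j (-y) = P j y := by
  have := P_smul j (-1 : 𝕜) y
  simpa using this

lemma coord_le_P (j : ℕ) (y : ℕ → 𝕜) : ‖y j‖ / (j+1) ≤ P j y := by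
  unfold P
  have : 0 ≤ (∑ m ∈ Icc (nn j / 2) (nn j), ‖y m‖) / (nn j : ℝ) := by positivity
  linarith

lemma window_le_P (j : ℕ) (y : ℕ → 𝕜) : (∑ m ∈ Icc (nn j / 2) (nn j), ‖y m‖) ≤ nn j * P j y := by
  unfold P
  have h0 : (0:ℝ) < nn j := by exact_mod_cast nn_pos j
  have : 0 ≤ ‖y j‖ / ((j:ℝ)+1) := by positivity
  rw [mul_add, mul_div_cancel₀ _ h0.ne']
  nlinarith [mul_nonneg h0.le this]

lemma continuous_P (j : ℕ) : Continuous (P j : (ℕ → 𝕜) → ℝ) := by
  unfold P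
  fun_prop

/-- monotonicity of `P` -/
lemma P_mono (j : ℕ) {y z : ℕ → 𝕜} (h : ∀ m, ‖y m‖ ≤ ‖z m‖) : P j y ≤ P j z := by
  unfold P
  gcongr
  · exact h _
  · exact h _

variable (𝕜)

/-- the underlying submodule -/
def XX : Submodule 𝕜 (ℕ → 𝕜) where
  carrier := {y | Tendsto (fun j => P j y) atTop (𝓝 0)}
  zero_mem' := by
    simp only [Set.mem_ofPred_eq, P_zero]
    exact tendsto_const_nhds
  add_mem' := by
    intro y z hy hz
    simp only [Set.mem_ofPred_eq] at *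
    have := hy.add hz
    rw [add_zero] at this
    exact squeeze_zero (fun j => P_nonneg j _) (fun j => P_add j y z) this
  smul_mem' := by
    intro c y hy
    simp only [Set.mem_ofPred_eq, P_smul] at *
    have := hy.const_mul ‖c‖
    rwa [mul_zero] at this

/-- the Banach space -/
def X : Type := ↥(XX 𝕜)

instance : AddCommGroup (X 𝕜) := inferInstanceAs (AddCommGroup ↥(XX 𝕜))
instance : Module 𝕜 (X 𝕜) := inferInstanceAs (Module 𝕜 ↥(XX 𝕜))

variable {𝕜}

/-- coordinates -/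
def X.val (y : X 𝕜) : ℕ → 𝕜 := Subtype.val y

/-- make an element -/
def X.mk (y : ℕ → 𝕜) (h : Tendsto (fun j => P j y) atTop (𝓝 0)) : X 𝕜 := ⟨y, h⟩

lemma X.val_mk (y : ℕ → 𝕜) (h) : (X.mk y h).val = y := rfl
lemma X.tends (y : X 𝕜) : Tendsto (fun j => P j y.val) atTop (𝓝 0) := y.2
lemma X.ext {y z : X 𝕜} (h : y.val = z.val) : y = z := Subtype.ext h
lemma X.val_add (y z : X 𝕜) : (y + z).val = y.val + z.val := rfl
lemma X.val_neg (y : X 𝕜) : (-y).val = -y.val := rfl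
lemma X.val_sub (y z : X 𝕜) : (y - z).val = y.val - z.val := rfl
lemma X.val_zero : (0 : X 𝕜).val = 0 := rfl
lemma X.val_smul (c : 𝕜) (y : X 𝕜) : (c • y).val = c • y.val := rfl

lemma X.bdd (y : X 𝕜) : BddAbove (Set.range fun j => P j y.val) := y.tends.bddAbove_range

/-- the norm -/
def NX : AddGroupNorm (X 𝕜) where
  toFun y := ⨆ j, P j y.val
  map_zero' := by
    simp only [X.val_zero, P_zero]
    exact ciSup_const
  add_le' y z := by
    refine ciSup_le fun j => ?_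
    rw [X.val_add]
    exact (P_add j _ _).trans (add_le_add (le_ciSup y.bdd j) (le_ciSup z.bdd j))
  neg' y := by simp only [X.val_neg, P_neg]
  eq_zero_of_map_eq_zero' y h := by
    apply X.ext
    funext j
    have h1 := (coord_le_P j y.val).trans ((le_ciSup y.bdd j).trans h.le)
    have h2 : (0:ℝ) < (j:ℝ) + 1 := by positivity
    rw [div_le_iff₀ h2, zero_mul] at h1
    simpa [X.val_zero] using h1

instance : NormedAddCommGroup (X 𝕜) := AddGroupNorm.toNormedAddCommGroup NX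

lemma X.norm_def (y : X 𝕜) : ‖y‖ = ⨆ j, P j y.val := rfl

lemma X.P_le_norm (y : X 𝕜) (j : ℕ) : P j y.val ≤ ‖y‖ := le_ciSup y.bdd j

lemma X.norm_le {y : X 𝕜} {r : ℝ} (h : ∀ j, P j y.val ≤ r) : ‖y‖ ≤ r := ciSup_le h

instance : NormedSpace 𝕜 (X 𝕜) where
  norm_smul_le c y := by
    refine X.norm_le fun j => ?_
    rw [X.val_smul, P_smul]
    exact mul_le_mul_of_nonneg_left (y.P_le_norm j) (norm_nonneg _)

lemma X.coord_le (y : X 𝕜) (j : ℕ) : ‖y.val j‖ ≤ (j+1) * ‖y‖ := by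
  have h1 := (coord_le_P j y.val).trans (y.P_le_norm j)
  have h2 : (0:ℝ) < (j:ℝ) + 1 := by positivity
  rw [div_le_iff₀ h2] at h1
  linarith

instance : CompleteSpace (X 𝕜) := by
  refine Metric.complete_of_cauchySeq_tendsto fun u hu => ?_
  -- coordinatewise limits
  have hc : ∀ m, ∃ l, Tendsto (fun n => (u n).val m) atTop (𝓝 l) := by
    intro m
    apply cauchySeq_tendsto_of_complete
    rw [Metric.cauchySeq_iff] at hu ⊢
    intro ε hε
    obtain ⟨N, hN⟩ := hu (ε / (m+1)) (by positivity)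
    refine ⟨N, fun a ha b hb => ?_⟩
    have h1 := hN a ha b hb
    rw [dist_eq_norm] at h1 ⊢
    have h2 := X.coord_le (u a - u b) m
    rw [X.val_sub] at h2
    have h3 : (0:ℝ) < (m:ℝ) + 1 := by positivity
    calc ‖(u a).val m - (u b).val m‖ ≤ (m+1) * ‖u a - u b‖ := h2
      _ < (m+1) * (ε / (m+1)) := by gcongr
      _ = ε := by field_simp
  choose l hl using hc
  have hlim : Tendsto (fun n => (u n).val) atTop (𝓝 l) := tendsto_pi_nhds.2 hl
  have key : ∀ ε > 0, ∃ N, ∀ n ≥ N, ∀ j, P j ((u n).val - l) ≤ ε := by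
    intro ε hε
    obtain ⟨N, hN⟩ := Metric.cauchySeq_iff.1 hu ε hε
    refine ⟨N, fun n hn j => ?_⟩
    have h1 : Tendsto (fun k => P j ((u n).val - (u k).val)) atTop (𝓝 (P j ((u n).val - l))) :=
      ((continuous_P j).tendsto _).comp (tendsto_const_nhds.sub hlim)
    refine le_of_tendsto h1 ?_
    filter_upwards [eventually_ge_atTop N] with k hk
    have h2 := hN n hn k hk
    rw [dist_eq_norm] at h2
    have h3 := X.P_le_norm (u n - u k) j
    rw [X.val_sub] at h3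
    exact h3.trans h2.le
  have hmem : Tendsto (fun j => P j l) atTop (𝓝 0) := by
    rw [Metric.tendsto_atTop]
    intro ε hε
    obtain ⟨N, hN⟩ := key (ε/3) (by positivity)
    obtain ⟨J, hJ⟩ := Metric.tendsto_atTop.1 (u N).tends (ε/3) (by positivity)
    refine ⟨J, fun j hj => ?_⟩
    have h1 := hN N le_rfl j
    have h2 := hJ j hj
    rw [Real.dist_eq, sub_zero, abs_of_nonneg (P_nonneg _ _)] at h2 ⊢
    have h3 : P j l ≤ P j (u N).val + P j (-((u N).val - l)) := by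
      have := P_add j (u N).val (-((u N).val - l))
      simpa using this
    rw [P_neg] at h3
    linarith
  refine ⟨X.mk l hmem, ?_⟩
  rw [Metric.tendsto_atTop]
  intro ε hε
  obtain ⟨N, hN⟩ := key (ε/2) (by positivity)
  refine ⟨N, fun n hn => ?_⟩
  rw [dist_eq_norm]
  have : ‖u n - X.mk l hmem‖ ≤ ε/2 := X.norm_le fun j => hN n hn j
  linarith

/-- the unit vectors / finite vectors -/
lemma fin_tends (v : ℕ → 𝕜) (L : ℕ) (h : ∀ m, L ≤ m → v m = 0) :
    Tendsto (fun j => P j v) atTop (𝓝 0) := by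
  refine tendsto_const_nhds.congr' ?_
  filter_upwards [eventually_ge_atTop (2*L)] with j hj
  unfold P
  rw [h j (by omega)]
  have : ∑ m ∈ Icc (nn j / 2) (nn j), ‖v m‖ = 0 := by
    refine Finset.sum_eq_zero fun m hm => ?_
    have h1 := (Finset.mem_Icc.1 hm).1
    have h2 := le_nn j
    rw [h m (by omega), norm_zero]
  rw [this]; simp

/-- truncation -/
def trunc (L : ℕ) (y : ℕ → 𝕜) : ℕ → 𝕜 := fun m => if m < L then y m else 0

lemma trunc_of_le (L : ℕ) (y : ℕ → 𝕜) {m : ℕ} (h : L ≤ m) : trunc L y m = 0 := by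
  simp [trunc, not_lt.2 h]

lemma trunc_of_lt (L : ℕ) (y : ℕ → 𝕜) {m : ℕ} (h : m < L) : trunc L y m = y m := by
  simp [trunc, h]

/-- truncation in `X` -/
def X.tr (L : ℕ) (y : ℕ → 𝕜) : X 𝕜 := X.mk (trunc L y) (fin_tends _ L fun _ hm => trunc_of_le L y hm)

lemma X.tr_val (L : ℕ) (y : ℕ → 𝕜) : (X.tr L y).val = trunc L y := rfl

lemma exists_tr_near (y : X 𝕜) {ε : ℝ} (hε : 0 < ε) : ∃ L, ‖y - X.tr L y.val‖ ≤ ε := by
  obtain ⟨J, hJ⟩ := Metric.tendsto_atTop.1 y.tends ε hε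
  refine ⟨nn J + J + 1, X.norm_le fun j => ?_⟩
  rw [X.val_sub, X.tr_val]
  rcases le_or_gt J j with hj | hj
  · have h1 := hJ j hj
    rw [Real.dist_eq, sub_zero, abs_of_nonneg (P_nonneg _ _)] at h1
    refine le_trans (P_mono j fun m => ?_) h1.le
    simp only [Pi.sub_apply, trunc]
    split_ifs <;> simp
  · have : P j (y.val - trunc (nn J + J + 1) y.val) = 0 := by
      unfold P
      have h1 : nn j ≤ nn J := nn_mono hj.le
      have h2 : (y.val - trunc (nn J + J + 1) y.val) j = 0 := by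
        rw [Pi.sub_apply, trunc_of_lt _ _ (by omega), sub_self]
      have h3 : ∑ m ∈ Icc (nn j / 2) (nn j), ‖(y.val - trunc (nn J + J + 1) y.val) m‖ = 0 := by
        refine Finset.sum_eq_zero fun m hm => ?_
        have := (Finset.mem_Icc.1 hm).2
        rw [Pi.sub_apply, trunc_of_lt _ _ (by omega), sub_self, norm_zero]
      rw [h2, h3]; simp
    rw [this]; exact hε.le

/-- unit vectors -/
def ee (m : ℕ) : X 𝕜 := X.mk (Pi.single m (1:𝕜)) (fin_tends _ (m+1) fun k hk => by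
  rw [Pi.single_apply, if_neg (by omega)])

lemma ee_val (m : ℕ) : (ee m : X 𝕜).val = Pi.single m (1:𝕜) := rfl

/-- the inclusion as a linear map -/
def incl : X 𝕜 →ₗ[𝕜] (ℕ → 𝕜) where
  toFun y := y.val
  map_add' _ _ := rfl
  map_smul' _ _ := rfl

lemma tr_eq_sum (L : ℕ) (y : ℕ → 𝕜) : X.tr L y = ∑ m ∈ range L, y m • (ee m : X 𝕜) := by
  apply X.ext
  change (X.tr L y).val = incl (∑ m ∈ range L, y m • (ee m : X 𝕜))
  rw [map_sum]
  funext k
  rw [Finset.sum_apply]
  have : ∀ m, (incl (y m • (ee m : X 𝕜))) k = if k = m then y m else 0 := by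
    intro m
    change (y m • (Pi.single m (1:𝕜) : ℕ → 𝕜)) k = _
    simp only [Pi.smul_apply, Pi.single_apply, smul_eq_mul, mul_ite, mul_one, mul_zero]
  simp only [this, Finset.sum_ite_eq, Finset.mem_range, X.tr_val, trunc]

instance : TopologicalSpace.SeparableSpace (X 𝕜) := by
  rw [← TopologicalSpace.isSeparable_univ_iff]
  have h1 : TopologicalSpace.IsSeparable (Set.range (ee : ℕ → X 𝕜)) :=
    (Set.countable_range _).isSeparable
  have h2 := (h1.span (R := 𝕜)).closure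
  refine h2.mono fun y _ => ?_
  rw [Metric.mem_closure_iff]
  intro ε hε
  obtain ⟨L, hL⟩ := exists_tr_near y (half_pos hε)
  refine ⟨X.tr L y.val, ?_, ?_⟩
  · rw [tr_eq_sum]
    exact Submodule.sum_mem _ fun m _ => Submodule.smul_mem _ _ (Submodule.subset_span ⟨m, rfl⟩)
  · rw [dist_eq_norm]; linarith

lemma not_finDim : ¬ FiniteDimensional 𝕜 (X 𝕜) := by
  intro h
  have h1 : LinearIndependent 𝕜 (fun m : ℕ => (ee m : X 𝕜)) := by
    apply LinearIndependent.of_comp (incl (𝕜 := 𝕜))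
    have h2 : (incl (𝕜 := 𝕜)) ∘ (fun m : ℕ => (ee m : X 𝕜)) = fun i => Pi.single i (1:𝕜) := rfl
    rw [h2]
    exact Pi.linearIndependent_single_one ℕ 𝕜
  exact Module.Finite.not_linearIndependent_of_infinite _ h1

/-- shift -/
def sh (y : ℕ → 𝕜) : ℕ → 𝕜 := fun m => y (m+1)

lemma P_sh (j : ℕ) (y : ℕ → 𝕜) : P j (sh y) ≤ 2 * P (j+1) y + P j y + 3 * P (nn j + 1) y := by
  have h0 : (0:ℝ) < nn j := by exact_mod_cast nn_pos j
  have h1 : ‖sh y j‖ / ((j:ℝ)+1) ≤ 2 * P (j+1) y := by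
    have := coord_le_P (j+1) y
    refine le_trans ?_ (mul_le_mul_of_nonneg_left this (by norm_num))
    unfold sh
    push_cast
    rw [← mul_div_assoc, div_le_div_iff₀ (by positivity) (by positivity)]
    have := norm_nonneg (y (j+1))
    have hj : (0:ℝ) ≤ j := by positivity
    nlinarith [mul_nonneg this hj]
  have h2 : (∑ m ∈ Icc (nn j / 2) (nn j), ‖sh y m‖) ≤
      (∑ m ∈ Icc (nn j / 2) (nn j), ‖y m‖) + ‖y (nn j + 1)‖ := by
    have h3 : (∑ m ∈ Icc (nn j / 2) (nn j), ‖sh y m‖) =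
        ∑ m ∈ Icc (nn j / 2 + 1) (nn j + 1), ‖y m‖ := by
      unfold sh
      rw [← Finset.map_add_right_Icc, Finset.sum_map]
      rfl
    rw [h3]
    have h4 : Icc (nn j / 2 + 1) (nn j + 1) ⊆ insert (nn j + 1) (Icc (nn j / 2) (nn j)) := by
      intro m hm
      simp only [Finset.mem_Icc, Finset.mem_insert] at *
      omega
    refine (Finset.sum_le_sum_of_subset_of_nonneg h4 fun _ _ _ => norm_nonneg _).trans ?_
    rw [Finset.sum_insert (by simp)]
    linarith
  have h5 : ‖y (nn j + 1)‖ / nn j ≤ 3 * P (nn j + 1) y := by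
    have := coord_le_P (nn j + 1) y
    refine le_trans ?_ (mul_le_mul_of_nonneg_left this (by norm_num))
    push_cast
    rw [← mul_div_assoc, div_le_div_iff₀ (by positivity) (by positivity)]
    have h6 := norm_nonneg (y (nn j+1))
    have h7 : (1:ℝ) ≤ nn j := by exact_mod_cast nn_pos j
    nlinarith [mul_nonneg h6 (sub_nonneg.2 h7)]
  have h8 : (∑ m ∈ Icc (nn j / 2) (nn j), ‖sh y m‖) / nn j ≤
      (∑ m ∈ Icc (nn j / 2) (nn j), ‖y m‖) / nn j + ‖y (nn j + 1)‖ / nn j := by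
    rw [← add_div]
    gcongr
  have h9 : (∑ m ∈ Icc (nn j / 2) (nn j), ‖y m‖) / nn j ≤ P j y := by
    unfold P
    have : 0 ≤ ‖y j‖ / ((j:ℝ)+1) := by positivity
    linarith
  have h10 : P j (sh y) = ‖sh y j‖ / ((j:ℝ)+1) + (∑ m ∈ Icc (nn j / 2) (nn j), ‖sh y m‖) / nn j := rfl
  linarith

lemma tendsto_nn : Tendsto nn atTop atTop := nn_strictMono.tendsto_atTop

lemma sh_tends (y : ℕ → 𝕜) (h : Tendsto (fun j => P j y) atTop (𝓝 0)) :
    Tendsto (fun j => P j (sh y)) atTop (𝓝 0) := by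
  refine squeeze_zero (fun j => P_nonneg j _) (fun j => P_sh j y) ?_
  have h1 : Tendsto (fun j => P (j+1) y) atTop (𝓝 0) := h.comp (tendsto_add_atTop_nat 1)
  have h2 : Tendsto (fun j => P (nn j + 1) y) atTop (𝓝 0) :=
    h.comp ((tendsto_add_atTop_nat 1).comp tendsto_nn)
  have := ((h1.const_mul 2).add h).add (h2.const_mul 3)
  simpa using this

/-- the backward shift as a continuous linear operator -/
def TT : X 𝕜 →L[𝕜] X 𝕜 :=
  LinearMap.mkContinuous
    { toFun := fun y => X.mk (sh y.val) (sh_tends _ y.tends)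
      map_add' := fun _ _ => rfl
      map_smul' := fun _ _ => rfl } 6 (by
    intro y
    refine X.norm_le fun j => ?_
    change P j (sh y.val) ≤ _
    have h1 := P_sh j y.val
    have h2 := y.P_le_norm (j+1)
    have h3 := y.P_le_norm j
    have h4 := y.P_le_norm (nn j + 1)
    linarith)

lemma TT_val (y : X 𝕜) : (TT y).val = sh y.val := rfl

lemma TT_iter (n : ℕ) (y : X 𝕜) (m : ℕ) : ((TT : X 𝕜 → X 𝕜)^[n] y).val m = y.val (m+n) := by
  induction n generalizing m with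
  | zero => rfl
  | succ n ih =>
    rw [Function.iterate_succ_apply', TT_val]
    unfold sh
    rw [ih]
    congr 1
    ring

end

end Pool.Agent.X187.FH
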