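import Mathlib

namespace Pool.Agent.X187.FH

open Filter Topology

/-- The visit set of the orbit of `x` to `V`. -/
def visits {X : Type} (T : X → X) (x : X) (V : Set X) : Set ℕ := {n | T^[n] x ∈ V}

/-- Lower density `liminf |A ∩ [1,N]| / N`. -/
noncomputable def lowerDensity (A : Set ℕ) : ℝ :=
  liminf (fun N : ℕ => ((A ∩ Set.Icc 1 N).ncard : ℝ) / N) atTop

/-- Upper density `limsup |A ∩ [1,N]| / N`. -/
noncomputable def upperDensity (A : Set ℕ) : ℝ :=
  limsup (fun N : ℕ => ((A ∩ Set.Icc 1 N).ncard : ℝ) / N) atTop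

/-- The family of sets of positive lower density. -/
def familyD : Set (Set ℕ) := {A | 0 < lowerDensity A}

/-- The family of sets of positive upper density. -/
def familyU : Set (Set ℕ) := {A | 0 < upperDensity A}

/-- Hereditary `F`-hypercyclicity of `T`. -/
def HereditarilyHypercyclic {X : Type} [TopologicalSpace X] (F : Set (Set ℕ)) (T : X → X) : Prop :=
  ∀ (I : Type) [Countable I] (V : I → Set X) (A : I → Set ℕ),
    (∀ i, IsOpen (V i)) → (∀ i, (V i).Nonempty) → (∀ i, A i ∈ F) →
      ∃ x : X, ∀ i, visits T x (V i) ∩ A i ∈ F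

end Pool.Agent.X187.FH
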